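import Mathlib

/-!
# MP_1a1084_an: a cyclic weighted shift `A` with `nd(Ã) ≥ nd(A) + 2`
-/

namespace Pool.Agent.Results.MP_1a1084_an.GapTwo

open Matrix

/-- The cyclic weighted shift `A` of size `n`: the entry `(i, i+1)` is `a_i` for `1 ≤ i ≤ n-1`, the
entry `(n, 1)` is `a_n`, all other entries are `0` (here indices start at `0`). -/
def cyc {n : ℕ} (a : Fin n → ℂ) : Matrix (Fin n) (Fin n) ℂ :=
  fun i j => if (j : ℕ) = i + 1 ∨ ((i : ℕ) + 1 = n ∧ (j : ℕ) = 0) then a i else 0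

/-- The truncated extension `Ã` of size `n + 1`: the entry `(i, i+1)` is `a_i` for `1 ≤ i ≤ n`, all
other entries are `0` (here indices start at `0`). -/
def ext {n : ℕ} (a : Fin n → ℂ) : Matrix (Fin (n + 1)) (Fin (n + 1)) ℂ :=
  fun i j => if h : (i : ℕ) < n ∧ (j : ℕ) = i + 1 then a ⟨i, h.1⟩ else 0

/-- `M` has a normal completion of size `m + k`: a normal matrix of this size whose leading principal
`m × m` submatrix is `M`. -/
def HasCompletion {m : ℕ} (M : Matrix (Fin m) (Fin m) ℂ) (k : ℕ) : Prop :=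
  ∃ N : Matrix (Fin (m + k)) (Fin (m + k)) ℂ, N * Nᴴ = Nᴴ * N ∧
    ∀ i j : Fin m, N (Fin.castAdd k i) (Fin.castAdd k j) = M i j

/-! ## Block form of completions -/

theorem hasCompletion_iff {m : ℕ} (M : Matrix (Fin m) (Fin m) ℂ) (k : ℕ) :
    HasCompletion M k ↔ ∃ N : Matrix (Fin m ⊕ Fin k) (Fin m ⊕ Fin k) ℂ, N * Nᴴ = Nᴴ * N ∧
      ∀ i j, N (Sum.inl i) (Sum.inl j) = M i j := by
  constructor
  · rintro ⟨N, h1, h2⟩
    refine ⟨N.submatrix finSumFinEquiv finSumFinEquiv, ?_, fun i j => ?_⟩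
    · rw [conjTranspose_submatrix, submatrix_mul_equiv, submatrix_mul_equiv, h1]
    · rw [submatrix_apply, finSumFinEquiv_apply_left, finSumFinEquiv_apply_left, h2]
  · rintro ⟨N, h1, h2⟩
    refine ⟨N.submatrix finSumFinEquiv.symm finSumFinEquiv.symm, ?_, fun i j => ?_⟩
    · rw [conjTranspose_submatrix, submatrix_mul_equiv, submatrix_mul_equiv, h1]
    · rw [submatrix_apply, finSumFinEquiv_symm_apply_castAdd, finSumFinEquiv_symm_apply_castAdd, h2]

/-- Every matrix has a normal completion (of twice its size). -/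
theorem exists_completion {m : ℕ} (M : Matrix (Fin m) (Fin m) ℂ) : ∃ k, HasCompletion M k := by
  refine ⟨m, (hasCompletion_iff M m).2 ⟨fromBlocks M Mᴴ Mᴴ M, ?_, fun i j => rfl⟩⟩
  rw [fromBlocks_conjTranspose, fromBlocks_multiply, fromBlocks_multiply,
    conjTranspose_conjTranspose]
  congr 1 <;> rw [add_comm]

open scoped Classical in
/-- The normal defect of `M`: the least `k` such that `M` has a normal completion of size `m + k`. -/
noncomputable def nd {m : ℕ} (M : Matrix (Fin m) (Fin m) ℂ) : ℕ := Nat.find (exists_completion M)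

/-! ## Pseudo-orthogonal families -/

theorem dependent {E : Type} [AddCommGroup E] [Module ℂ E] [FiniteDimensional ℂ E] {ι : Type}
    [Fintype ι] (v : ι → E) (h : Module.finrank ℂ E < Fintype.card ι) :
    ∃ z : ι → ℂ, ∑ i, z i • v i = 0 ∧ ∃ i, z i ≠ 0 := by
  rw [← Fintype.not_linearIndependent_iff]
  intro h'
  have := h'.fintype_card_le_finrank
  omega

section

variable {K : Type} [NormedAddCommGroup K] [InnerProductSpace ℂ K]

theorem pseudo {ι : Type} [Fintype ι] [DecidableEq ι] (u v : ι → K) (δ : ι → ℝ)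
    (h : ∀ i j, inner ℂ (u i) (u j) - inner ℂ (v i) (v j) = if i = j then (δ i : ℂ) else 0)
    (z : ι → ℂ) :
    ‖∑ i, z i • u i‖ ^ 2 - ‖∑ i, z i • v i‖ ^ 2 = ∑ i, ‖z i‖ ^ 2 * δ i := by
  have key : ∀ w : ι → K, ((‖∑ i, z i • w i‖ ^ 2 : ℝ) : ℂ) =
      ∑ i, ∑ j, (starRingEnd ℂ) (z i) * z j * inner ℂ (w i) (w j) := by
    intro w
    rw [Complex.ofReal_pow]
    have := inner_self_eq_norm_sq_to_K (𝕜 := ℂ) (∑ i, z i • w i)
    simp only [Complex.coe_algebraMap] at this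
    rw [← this, sum_inner]
    refine Finset.sum_congr rfl fun i _ => ?_
    rw [inner_sum]
    refine Finset.sum_congr rfl fun j _ => ?_
    rw [inner_smul_left, inner_smul_right]
    ring
  apply Complex.ofReal_injective
  rw [Complex.ofReal_sub, key u, key v, ← Finset.sum_sub_distrib, Complex.ofReal_sum]
  refine Finset.sum_congr rfl fun i _ => ?_
  rw [← Finset.sum_sub_distrib]
  have : ∀ j, (starRingEnd ℂ) (z i) * z j * inner ℂ (u i) (u j) -
      (starRingEnd ℂ) (z i) * z j * inner ℂ (v i) (v j) =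
      if i = j then (starRingEnd ℂ) (z i) * z j * (δ i : ℂ) else 0 := by
    intro j
    rw [← mul_sub, h i j]
    split_ifs <;> simp
  simp only [this, Finset.sum_ite_eq, Finset.mem_univ, if_true]
  rw [Complex.ofReal_mul, Complex.ofReal_pow, ← Complex.conj_mul']

variable [FiniteDimensional ℂ K]

theorem pos_card {ι : Type} [Fintype ι] [DecidableEq ι] (u v : ι → K) (δ : ι → ℝ)
    (h : ∀ i j, inner ℂ (u i) (u j) - inner ℂ (v i) (v j) = if i = j then (δ i : ℂ) else 0)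
    (hδ : ∀ i, 0 < δ i) : Fintype.card ι ≤ Module.finrank ℂ K := by
  by_contra hc
  obtain ⟨z, hz, i, hi⟩ := dependent u (by omega)
  have h1 := pseudo u v δ h z
  rw [hz, norm_zero] at h1
  have h2 : ∑ i, ‖z i‖ ^ 2 * δ i > 0 := by
    refine Finset.sum_pos' (fun j _ => by have := hδ j; positivity) ⟨i, Finset.mem_univ i, ?_⟩
    have := hδ i
    have := norm_pos_iff.2 hi
    positivity
  nlinarith [sq_nonneg ‖∑ i, z i • v i‖]

theorem neg_card {ι : Type} [Fintype ι] [DecidableEq ι] (u v : ι → K) (δ : ι → ℝ)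
    (h : ∀ i j, inner ℂ (u i) (u j) - inner ℂ (v i) (v j) = if i = j then (δ i : ℂ) else 0)
    (hδ : ∀ i, δ i < 0) : Fintype.card ι ≤ Module.finrank ℂ K := by
  refine pos_card v u (fun i => - δ i) (fun i j => ?_) fun i => by linarith [hδ i]
  have := h i j
  rw [← neg_sub, this]
  split_ifs <;> simp

theorem tie {ι : Type} [Fintype ι] [DecidableEq ι] (u v : ι → K) (δ : ι → ℝ)
    (h : ∀ i j, inner ℂ (u i) (u j) - inner ℂ (v i) (v j) = if i = j then (δ i : ℂ) else 0)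
    (t : ι) (ht : δ t = 0) (hδ : ∀ i, i ≠ t → δ i < 0)
    (hc : Module.finrank ℂ K < Fintype.card ι) : u t = 0 ∧ v t = 0 := by
  obtain ⟨z, hz, i, hi⟩ := dependent v hc
  have h1 := pseudo u v δ h z
  rw [hz, norm_zero] at h1
  have h3 : ∀ j, ‖z j‖ ^ 2 * δ j ≤ 0 := by
    intro j
    by_cases hj : j = t
    · rw [hj, ht, mul_zero]
    · have := hδ j hj
      nlinarith [sq_nonneg ‖z j‖]
  have h4 : ∑ i, ‖z i‖ ^ 2 * δ i = 0 :=
    le_antisymm (Finset.sum_nonpos fun j _ => h3 j) (by rw [← h1]; nlinarith [sq_nonneg ‖∑ i, z i • u i‖])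
  have h5 : ∀ j, j ≠ t → z j = 0 := by
    intro j hj
    have h6 := (Finset.sum_eq_zero_iff_of_nonpos fun j _ => h3 j).1 h4 j (Finset.mem_univ j)
    have h7 := hδ j hj
    rcases mul_eq_zero.1 h6 with h8 | h8
    · exact norm_eq_zero.1 (pow_eq_zero_iff (two_ne_zero)|>.1 h8)
    · exact absurd h8 h7.ne
  have h6 : z t ≠ 0 := by
    by_cases hit : i = t
    · rwa [← hit]
    · exact absurd (h5 i hit) hi
  have h7 : ∀ w : ι → K, ∑ i, z i • w i = z t • w t := by
    intro w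
    refine Finset.sum_eq_single t (fun j _ hj => by rw [h5 j hj, zero_smul]) fun h => ?_
    exact absurd (Finset.mem_univ t) h
  rw [h7] at hz
  rw [h7, h4] at h1
  constructor
  · have : ‖z t • u t‖ = 0 := by nlinarith [norm_nonneg (z t • u t)]
    exact (smul_eq_zero.1 (norm_eq_zero.1 this)).resolve_left h6
  · exact (smul_eq_zero.1 hz).resolve_left h6

/-! ## Operators whose range lies in a line -/

omit [FiniteDimensional ℂ K] in
theorem line (D D' : K →ₗ[ℂ] K) (hadj : ∀ x y, inner ℂ (D x) y = inner ℂ x (D' y))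
    (hL : ∀ X Y : K × K, ∃ α β : ℂ, (α ≠ 0 ∨ β ≠ 0) ∧
      α • (D X.1 - D' X.2) + β • (D Y.1 - D' Y.2) = 0) (z : K) : ‖D z‖ = ‖D' z‖ := by
  by_cases h0 : ∀ x, D' x = 0
  · have h1 : D z = 0 := by
      have := hadj z (D z)
      rw [h0, inner_zero_right] at this
      exact inner_self_eq_zero.1 this
    rw [h1, h0]
  · push Not at h0
    obtain ⟨x, hx⟩ := h0
    set ξ := D' x with hξ
    have hlin : ∀ X : K × K, ∃ f : ℂ, D X.1 - D' X.2 = f • ξ := by
      intro X
      obtain ⟨α, β, h1, h2⟩ := hL X (0, -x)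
      simp only [map_zero, map_neg, zero_sub, neg_neg] at h2
      rw [← hξ] at h2
      have h3 : α ≠ 0 := by
        intro h3
        rw [h3, zero_smul, zero_add] at h2
        rcases smul_eq_zero.1 h2 with h4 | h4
        · exact h1.elim (fun h => h h3) fun h => h h4
        · exact hx h4
      refine ⟨- (α⁻¹ * β), ?_⟩
      have h4 : α • (D X.1 - D' X.2) = (-β) • ξ := by
        rw [neg_smul]
        exact eq_neg_of_add_eq_zero_left h2
      have h5 := congrArg (fun y => α⁻¹ • y) h4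
      simp only [smul_smul, inv_mul_cancel₀ h3, one_smul] at h5
      rw [h5]
      congr 1
      ring
    have hD : ∀ y, ∃ f : ℂ, D y = f • ξ := by
      intro y
      obtain ⟨f, hf⟩ := hlin (y, 0)
      exact ⟨f, by simpa using hf⟩
    have hD' : ∀ y, ∃ f : ℂ, D' y = f • ξ := by
      intro y
      obtain ⟨f, hf⟩ := hlin (0, -y)
      exact ⟨f, by simpa using hf⟩
    obtain ⟨f₀, hf₀⟩ := hD ξ
    obtain ⟨g₀, hg₀⟩ := hD' ξ
    have hξ0 : (0 : ℝ) < ‖ξ‖ := norm_pos_iff.2 hx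
    have e1 : ∀ (y : K) (f : ℂ), D y = f • ξ → ‖f‖ * ‖ξ‖ ^ 2 = ‖g₀‖ * ‖inner ℂ y ξ‖ := by
      intro y f hf
      have h1 := hadj y ξ
      rw [hf, hg₀, inner_smul_left, inner_smul_right] at h1
      have h2 := congrArg norm h1
      rw [norm_mul, norm_mul, RCLike.norm_conj, inner_self_eq_norm_sq_to_K] at h2
      simpa using h2
    have e2 : ∀ (y : K) (g : ℂ), D' y = g • ξ → ‖g‖ * ‖ξ‖ ^ 2 = ‖f₀‖ * ‖inner ℂ y ξ‖ := by
      intro y g hg
      have h1 := hadj ξ y
      rw [hg, hf₀, inner_smul_left, inner_smul_right] at h1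
      have h2 := congrArg norm h1
      rw [norm_mul, norm_mul, RCLike.norm_conj, inner_self_eq_norm_sq_to_K, norm_inner_symm] at h2
      simp only [Complex.coe_algebraMap, norm_pow, Complex.norm_real, norm_norm] at h2
      exact h2.symm
    have e3 : ‖f₀‖ = ‖g₀‖ := by
      have h1 := e1 ξ f₀ hf₀
      rw [inner_self_eq_norm_sq_to_K] at h1
      simp only [Complex.coe_algebraMap, norm_pow, Complex.norm_real, norm_norm] at h1
      exact mul_right_cancel₀ (by positivity) h1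
    obtain ⟨f, hf⟩ := hD z
    obtain ⟨g, hg⟩ := hD' z
    have h1 := e1 z f hf
    have h2 := e2 z g hg
    rw [hf, hg, norm_smul, norm_smul]
    congr 1
    have h3 : ‖f‖ * ‖ξ‖ ^ 2 = ‖g‖ * ‖ξ‖ ^ 2 := by rw [h1, h2, e3]
    exact mul_right_cancel₀ (by positivity) h3

/-! ## The core of the lower bound -/

theorem core (hK : Module.finrank ℂ K < 5) (e : Fin 8 → K) (D D' : K →ₗ[ℂ] K)
    (hadj : ∀ x y, inner ℂ (D x) y = inner ℂ x (D' y)) (δ : Fin 7 → ℝ)
    (he : ∀ i j : Fin 7, inner ℂ (e i.castSucc) (e j.castSucc) - inner ℂ (e i.succ) (e j.succ) =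
      if i = j then (δ i : ℂ) else 0)
    (hδ : ∀ i, δ i ≠ 0) (h0 : 0 < δ 0) (h1 : 0 < δ 0 + δ 1) (h2 : 0 < δ 1 + δ 2)
    (h3 : 0 < δ 2 + δ 3) (h4 : 0 < δ 3 + δ 4) (h5 : δ 1 + δ 2 + δ 3 + δ 4 + δ 5 < 0)
    (hD : ∀ i : Fin 7, D (e i.castSucc) = D' (e i.succ))
    (hz : ∀ z, ‖inner ℂ z (e 0)‖ ^ 2 + ‖D z‖ ^ 2 = ‖inner ℂ z (e 7)‖ ^ 2 + ‖D' z‖ ^ 2) : False := by
  -- the norms of `D z` and `D' z` agree
  have hn : ∀ z, ‖D z‖ = ‖D' z‖ := by
    refine line D D' hadj fun X Y => ?_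
    let V : Fin 7 ⊕ Fin 2 → K × K := Sum.elim (fun i => (e i.castSucc, e i.succ)) ![X, Y]
    obtain ⟨g, hg, i, hi⟩ := dependent V (by
      rw [Module.finrank_prod, Fintype.card_sum, Fintype.card_fin, Fintype.card_fin]
      omega)
    rw [Fintype.sum_sum_type, Fin.sum_univ_two] at hg
    simp only [V, Sum.elim_inl, Sum.elim_inr, Matrix.cons_val_zero, Matrix.cons_val_one] at hg
    refine ⟨g (Sum.inr 0), g (Sum.inr 1), ?_, ?_⟩
    · by_contra hc
      push Not at hc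
      rw [hc.1, hc.2, zero_smul, zero_smul, add_zero, add_zero] at hg
      have hg1 := congrArg Prod.fst hg
      have hg2 := congrArg Prod.snd hg
      rw [Prod.fst_sum] at hg1
      rw [Prod.snd_sum] at hg2
      simp only [Prod.smul_fst, Prod.smul_snd, Prod.fst_zero, Prod.snd_zero] at hg1 hg2
      have hgz : ∀ i, g (Sum.inl i) = 0 := by
        intro i
        have h6 : inner ℂ (e i.castSucc) (∑ j, g (Sum.inl j) • e j.castSucc) -
            inner ℂ (e i.succ) (∑ j, g (Sum.inl j) • e j.succ) = g (Sum.inl i) * δ i := by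
          rw [inner_sum, inner_sum, ← Finset.sum_sub_distrib]
          rw [Finset.sum_eq_single i]
          · rw [inner_smul_right, inner_smul_right, ← mul_sub, he i i, if_pos rfl]
          · intro j _ hj
            rw [inner_smul_right, inner_smul_right, ← mul_sub, he i j, if_neg (Ne.symm hj), mul_zero]
          · intro h
            exact absurd (Finset.mem_univ i) h
        rw [hg1, hg2, inner_zero_right, inner_zero_right, sub_zero] at h6
        rcases mul_eq_zero.1 h6.symm with h7 | h7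
        · exact h7
        · exact absurd (Complex.ofReal_eq_zero.1 h7) (hδ i)
      rcases i with i | i
      · exact hi (hgz i)
      · fin_cases i
        · exact hi hc.1
        · exact hi hc.2
    · have hg' := congrArg (fun P : K × K => D P.1 - D' P.2) hg
      simp only [Prod.fst_add, Prod.snd_add, Prod.fst_sum, Prod.snd_sum, Prod.smul_fst,
        Prod.smul_snd, Prod.fst_zero, Prod.snd_zero, map_zero, sub_zero, map_add, map_sum,
        map_smul, hD] at hg'
      rw [← hg']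
      simp only [smul_sub]
      abel
  have hz' : ∀ z, ‖inner ℂ z (e 0)‖ = ‖inner ℂ z (e 7)‖ := by
    intro z
    have h6 := hz z
    rw [hn z] at h6
    have h7 : ‖inner ℂ z (e 0)‖ ^ 2 = ‖inner ℂ z (e 7)‖ ^ 2 := by linarith
    exact (sq_eq_sq₀ (norm_nonneg _) (norm_nonneg _)).1 h7
  -- `e 7` is a multiple of `e 0`
  have hd : ∀ i : Fin 7, ‖e i.castSucc‖ ^ 2 - ‖e i.succ‖ ^ 2 = δ i := by
    intro i
    have h6 := he i i
    rw [if_pos rfl, inner_self_eq_norm_sq_to_K, inner_self_eq_norm_sq_to_K] at h6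
    apply Complex.ofReal_injective
    rw [← h6]
    simp
  have he0 : e 0 ≠ 0 := by
    intro h6
    have h7 := hd 0
    rw [Fin.castSucc_zero, h6, norm_zero] at h7
    nlinarith [sq_nonneg ‖e (Fin.succ 0)‖]
  obtain ⟨ω, hω⟩ : ∃ ω : ℂ, e 7 = ω • e 0 := by
    refine ⟨inner ℂ (e 0) (e 7) / inner ℂ (e 0) (e 0), ?_⟩
    have h6 : (inner ℂ (e 0) (e 0) : ℂ) ≠ 0 := fun h => he0 (inner_self_eq_zero.1 h)
    set w := e 7 - (inner ℂ (e 0) (e 7) / inner ℂ (e 0) (e 0)) • e 0 with hw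
    have h7 : inner ℂ (e 0) w = 0 := by
      rw [hw, inner_sub_right, inner_smul_right, div_mul_cancel₀ _ h6, sub_self]
    have h8 : inner ℂ w (e 0) = 0 := inner_eq_zero_symm.1 h7
    have h9 : inner ℂ w (e 7) = 0 := by
      rw [← norm_eq_zero, ← hz' w, h8, norm_zero]
    have h10 : inner ℂ w w = 0 := by
      nth_rewrite 2 [hw]
      rw [inner_sub_right, inner_smul_right, h9, h8, mul_zero, sub_zero]
    exact sub_eq_zero.1 (inner_self_eq_zero.1 h10)
  have hω1 : (starRingEnd ℂ) ω * ω = 1 := by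
    have h6 := hz' (e 0)
    rw [hω, inner_smul_right, norm_mul] at h6
    have h7 : ‖inner ℂ (e 0) (e 0)‖ ≠ 0 := by
      rw [norm_ne_zero_iff]
      exact fun h => he0 (inner_self_eq_zero.1 h)
    have h8 : ‖ω‖ = 1 := by
      have : (1 - ‖ω‖) * ‖inner ℂ (e 0) (e 0)‖ = 0 := by linarith
      rcases mul_eq_zero.1 this with h9 | h9
      · linarith
      · exact absurd h9 h7
    rw [Complex.conj_mul', h8]
    simp
  -- the five positive pairs
  let u : Fin 5 → K := ![e 0, e 1, e 2, e 3, e 6]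
  let v : Fin 5 → K := ![e 2, e 3, e 4, e 5, ω • e 1]
  let ε : Fin 5 → ℝ := ![δ 0 + δ 1, δ 1 + δ 2, δ 2 + δ 3, δ 3 + δ 4,
    -(δ 1 + δ 2 + δ 3 + δ 4 + δ 5)]
  have hs : ∀ i j : Fin 7, i ≠ j →
      inner ℂ (e i.castSucc) (e j.castSucc) = inner ℂ (e i.succ) (e j.succ) := by
    intro i j hij
    have h6 := he i j
    rw [if_neg hij] at h6
    exact sub_eq_zero.1 h6
  have s01 : (inner ℂ (e 0) (e 1) : ℂ) = inner ℂ (e 1) (e 2) := hs 0 1 (by decide)
  have s02 : (inner ℂ (e 0) (e 2) : ℂ) = inner ℂ (e 1) (e 3) := hs 0 2 (by decide)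
  have s03 : (inner ℂ (e 0) (e 3) : ℂ) = inner ℂ (e 1) (e 4) := hs 0 3 (by decide)
  have s04 : (inner ℂ (e 0) (e 4) : ℂ) = inner ℂ (e 1) (e 5) := hs 0 4 (by decide)
  have s06 : (inner ℂ (e 0) (e 6) : ℂ) = inner ℂ (e 1) (e 7) := hs 0 6 (by decide)
  have s10 : (inner ℂ (e 1) (e 0) : ℂ) = inner ℂ (e 2) (e 1) := hs 1 0 (by decide)
  have s12 : (inner ℂ (e 1) (e 2) : ℂ) = inner ℂ (e 2) (e 3) := hs 1 2 (by decide)
  have s13 : (inner ℂ (e 1) (e 3) : ℂ) = inner ℂ (e 2) (e 4) := hs 1 3 (by decide)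
  have s14 : (inner ℂ (e 1) (e 4) : ℂ) = inner ℂ (e 2) (e 5) := hs 1 4 (by decide)
  have s16 : (inner ℂ (e 1) (e 6) : ℂ) = inner ℂ (e 2) (e 7) := hs 1 6 (by decide)
  have s20 : (inner ℂ (e 2) (e 0) : ℂ) = inner ℂ (e 3) (e 1) := hs 2 0 (by decide)
  have s21 : (inner ℂ (e 2) (e 1) : ℂ) = inner ℂ (e 3) (e 2) := hs 2 1 (by decide)
  have s23 : (inner ℂ (e 2) (e 3) : ℂ) = inner ℂ (e 3) (e 4) := hs 2 3 (by decide)
  have s24 : (inner ℂ (e 2) (e 4) : ℂ) = inner ℂ (e 3) (e 5) := hs 2 4 (by decide)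
  have s26 : (inner ℂ (e 2) (e 6) : ℂ) = inner ℂ (e 3) (e 7) := hs 2 6 (by decide)
  have s30 : (inner ℂ (e 3) (e 0) : ℂ) = inner ℂ (e 4) (e 1) := hs 3 0 (by decide)
  have s31 : (inner ℂ (e 3) (e 1) : ℂ) = inner ℂ (e 4) (e 2) := hs 3 1 (by decide)
  have s32 : (inner ℂ (e 3) (e 2) : ℂ) = inner ℂ (e 4) (e 3) := hs 3 2 (by decide)
  have s34 : (inner ℂ (e 3) (e 4) : ℂ) = inner ℂ (e 4) (e 5) := hs 3 4 (by decide)
  have s36 : (inner ℂ (e 3) (e 6) : ℂ) = inner ℂ (e 4) (e 7) := hs 3 6 (by decide)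
  have s40 : (inner ℂ (e 4) (e 0) : ℂ) = inner ℂ (e 5) (e 1) := hs 4 0 (by decide)
  have s41 : (inner ℂ (e 4) (e 1) : ℂ) = inner ℂ (e 5) (e 2) := hs 4 1 (by decide)
  have s42 : (inner ℂ (e 4) (e 2) : ℂ) = inner ℂ (e 5) (e 3) := hs 4 2 (by decide)
  have s43 : (inner ℂ (e 4) (e 3) : ℂ) = inner ℂ (e 5) (e 4) := hs 4 3 (by decide)
  have s60 : (inner ℂ (e 6) (e 0) : ℂ) = inner ℂ (e 7) (e 1) := hs 6 0 (by decide)
  have s61 : (inner ℂ (e 6) (e 1) : ℂ) = inner ℂ (e 7) (e 2) := hs 6 1 (by decide)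
  have s62 : (inner ℂ (e 6) (e 2) : ℂ) = inner ℂ (e 7) (e 3) := hs 6 2 (by decide)
  have s63 : (inner ℂ (e 6) (e 3) : ℂ) = inner ℂ (e 7) (e 4) := hs 6 3 (by decide)
  have g0 : (inner ℂ (e 0) (e 0) : ℂ) - inner ℂ (e 1) (e 1) = (δ 0 : ℂ) := by
    have := he 0 0
    rwa [if_pos rfl] at this
  have g1 : (inner ℂ (e 1) (e 1) : ℂ) - inner ℂ (e 2) (e 2) = (δ 1 : ℂ) := by
    have := he 1 1
    rwa [if_pos rfl] at this
  have g2 : (inner ℂ (e 2) (e 2) : ℂ) - inner ℂ (e 3) (e 3) = (δ 2 : ℂ) := by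
    have := he 2 2
    rwa [if_pos rfl] at this
  have g3 : (inner ℂ (e 3) (e 3) : ℂ) - inner ℂ (e 4) (e 4) = (δ 3 : ℂ) := by
    have := he 3 3
    rwa [if_pos rfl] at this
  have g4 : (inner ℂ (e 4) (e 4) : ℂ) - inner ℂ (e 5) (e 5) = (δ 4 : ℂ) := by
    have := he 4 4
    rwa [if_pos rfl] at this
  have g5 : (inner ℂ (e 5) (e 5) : ℂ) - inner ℂ (e 6) (e 6) = (δ 5 : ℂ) := by
    have := he 5 5
    rwa [if_pos rfl] at this
  have k1 : (inner ℂ (e 7) (e 1) : ℂ) = (starRingEnd ℂ) ω * inner ℂ (e 0) (e 1) := by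
    rw [hω, inner_smul_left]
  have l1 : (inner ℂ (e 1) (e 7) : ℂ) = ω * inner ℂ (e 1) (e 0) := by
    rw [hω, inner_smul_right]
  have k2 : (inner ℂ (e 7) (e 2) : ℂ) = (starRingEnd ℂ) ω * inner ℂ (e 0) (e 2) := by
    rw [hω, inner_smul_left]
  have l2 : (inner ℂ (e 2) (e 7) : ℂ) = ω * inner ℂ (e 2) (e 0) := by
    rw [hω, inner_smul_right]
  have k3 : (inner ℂ (e 7) (e 3) : ℂ) = (starRingEnd ℂ) ω * inner ℂ (e 0) (e 3) := by
    rw [hω, inner_smul_left]
  have l3 : (inner ℂ (e 3) (e 7) : ℂ) = ω * inner ℂ (e 3) (e 0) := by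
    rw [hω, inner_smul_right]
  have k4 : (inner ℂ (e 7) (e 4) : ℂ) = (starRingEnd ℂ) ω * inner ℂ (e 0) (e 4) := by
    rw [hω, inner_smul_left]
  have l4 : (inner ℂ (e 4) (e 7) : ℂ) = ω * inner ℂ (e 4) (e 0) := by
    rw [hω, inner_smul_right]
  have huv : ∀ i j : Fin 5, inner ℂ (u i) (u j) - inner ℂ (v i) (v j) =
      if i = j then (ε i : ℂ) else 0 := by
    intro i j
    fin_cases i <;> fin_cases j
    · show (inner ℂ (e 0) (e 0) : ℂ) - inner ℂ (e 2) (e 2) = (((δ 0 + δ 1 : ℝ)) : ℂ)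
      push_cast
      linear_combination g0 + g1
    · show (inner ℂ (e 0) (e 1) : ℂ) - inner ℂ (e 2) (e 3) = 0
      linear_combination s01 + s12
    · show (inner ℂ (e 0) (e 2) : ℂ) - inner ℂ (e 2) (e 4) = 0
      linear_combination s02 + s13
    · show (inner ℂ (e 0) (e 3) : ℂ) - inner ℂ (e 2) (e 5) = 0
      linear_combination s03 + s14
    · show (inner ℂ (e 0) (e 6) : ℂ) - inner ℂ (e 2) (ω • e 1) = 0
      rw [inner_smul_right]
      linear_combination s06 + l1 + ω * s10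
    · show (inner ℂ (e 1) (e 0) : ℂ) - inner ℂ (e 3) (e 2) = 0
      linear_combination s10 + s21
    · show (inner ℂ (e 1) (e 1) : ℂ) - inner ℂ (e 3) (e 3) = (((δ 1 + δ 2 : ℝ)) : ℂ)
      push_cast
      linear_combination g1 + g2
    · show (inner ℂ (e 1) (e 2) : ℂ) - inner ℂ (e 3) (e 4) = 0
      linear_combination s12 + s23
    · show (inner ℂ (e 1) (e 3) : ℂ) - inner ℂ (e 3) (e 5) = 0
      linear_combination s13 + s24
    · show (inner ℂ (e 1) (e 6) : ℂ) - inner ℂ (e 3) (ω • e 1) = 0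
      rw [inner_smul_right]
      linear_combination s16 + l2 + ω * s20
    · show (inner ℂ (e 2) (e 0) : ℂ) - inner ℂ (e 4) (e 2) = 0
      linear_combination s20 + s31
    · show (inner ℂ (e 2) (e 1) : ℂ) - inner ℂ (e 4) (e 3) = 0
      linear_combination s21 + s32
    · show (inner ℂ (e 2) (e 2) : ℂ) - inner ℂ (e 4) (e 4) = (((δ 2 + δ 3 : ℝ)) : ℂ)
      push_cast
      linear_combination g2 + g3
    · show (inner ℂ (e 2) (e 3) : ℂ) - inner ℂ (e 4) (e 5) = 0
      linear_combination s23 + s34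
    · show (inner ℂ (e 2) (e 6) : ℂ) - inner ℂ (e 4) (ω • e 1) = 0
      rw [inner_smul_right]
      linear_combination s26 + l3 + ω * s30
    · show (inner ℂ (e 3) (e 0) : ℂ) - inner ℂ (e 5) (e 2) = 0
      linear_combination s30 + s41
    · show (inner ℂ (e 3) (e 1) : ℂ) - inner ℂ (e 5) (e 3) = 0
      linear_combination s31 + s42
    · show (inner ℂ (e 3) (e 2) : ℂ) - inner ℂ (e 5) (e 4) = 0
      linear_combination s32 + s43
    · show (inner ℂ (e 3) (e 3) : ℂ) - inner ℂ (e 5) (e 5) = (((δ 3 + δ 4 : ℝ)) : ℂ)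
      push_cast
      linear_combination g3 + g4
    · show (inner ℂ (e 3) (e 6) : ℂ) - inner ℂ (e 5) (ω • e 1) = 0
      rw [inner_smul_right]
      linear_combination s36 + l4 + ω * s40
    · show (inner ℂ (e 6) (e 0) : ℂ) - inner ℂ (ω • e 1) (e 2) = 0
      rw [inner_smul_left]
      linear_combination s60 + k1 + (starRingEnd ℂ) ω * s01
    · show (inner ℂ (e 6) (e 1) : ℂ) - inner ℂ (ω • e 1) (e 3) = 0
      rw [inner_smul_left]
      linear_combination s61 + k2 + (starRingEnd ℂ) ω * s02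
    · show (inner ℂ (e 6) (e 2) : ℂ) - inner ℂ (ω • e 1) (e 4) = 0
      rw [inner_smul_left]
      linear_combination s62 + k3 + (starRingEnd ℂ) ω * s03
    · show (inner ℂ (e 6) (e 3) : ℂ) - inner ℂ (ω • e 1) (e 5) = 0
      rw [inner_smul_left]
      linear_combination s63 + k4 + (starRingEnd ℂ) ω * s04
    · show (inner ℂ (e 6) (e 6) : ℂ) - inner ℂ (ω • e 1) (ω • e 1) = (((-(δ 1 + δ 2 + δ 3 + δ 4 + δ 5) : ℝ)) : ℂ)
      rw [inner_smul_left, inner_smul_right]
      push_cast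
      linear_combination -(g1 + g2 + g3 + g4 + g5) - inner ℂ (e 1) (e 1) * hω1
  have hε : ∀ i, 0 < ε i := by
    intro i
    fin_cases i
    · exact h1
    · exact h2
    · exact h3
    · exact h4
    · show 0 < -(δ 1 + δ 2 + δ 3 + δ 4 + δ 5)
      linarith
  have h6 := pos_card u v ε huv hε
  rw [Fintype.card_fin] at h6
  omega

end

/-! ## The vectors of a completion -/

section

variable {m k : ℕ} (N : Matrix (Fin m ⊕ Fin k) (Fin m ⊕ Fin k) ℂ)

/-- The right part of the row `i`. -/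
noncomputable def rowV (i : Fin m) : EuclideanSpace ℂ (Fin k) :=
  WithLp.toLp 2 fun κ => N (Sum.inl i) (Sum.inr κ)

/-- The conjugate of the lower part of the column `i`. -/
noncomputable def colV (i : Fin m) : EuclideanSpace ℂ (Fin k) :=
  WithLp.toLp 2 fun κ => (starRingEnd ℂ) (N (Sum.inr κ) (Sum.inl i))

/-- The operator of the lower right block. -/
noncomputable def opD : EuclideanSpace ℂ (Fin k) →ₗ[ℂ] EuclideanSpace ℂ (Fin k) :=
  Matrix.toEuclideanLin (fun κ l => N (Sum.inr l) (Sum.inr κ))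

theorem gram (hN : N * Nᴴ = Nᴴ * N) (M : Matrix (Fin m) (Fin m) ℂ)
    (hM : ∀ i j, N (Sum.inl i) (Sum.inl j) = M i j) (i j : Fin m) :
    inner ℂ (colV N j) (colV N i) - inner ℂ (rowV N j) (rowV N i) = (M * Mᴴ - Mᴴ * M) i j := by
  have h := congrFun (congrFun hN (Sum.inl i)) (Sum.inl j)
  rw [Matrix.mul_apply, Matrix.mul_apply, Fintype.sum_sum_type, Fintype.sum_sum_type] at h
  simp only [conjTranspose_apply, hM] at h
  rw [Matrix.sub_apply, Matrix.mul_apply, Matrix.mul_apply, PiLp.inner_apply, PiLp.inner_apply]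
  simp only [colV, rowV, RCLike.inner_apply, conjTranspose_apply, Complex.conj_conj]
  simp only [← starRingEnd_apply] at h ⊢
  linear_combination -h

theorem cross (hN : N * Nᴴ = Nᴴ * N) (M : Matrix (Fin m) (Fin m) ℂ)
    (hM : ∀ i j, N (Sum.inl i) (Sum.inl j) = M i j) (i : Fin m) :
    ∑ l, M i l • colV N l + LinearMap.adjoint (opD N) (rowV N i) =
      ∑ l, (starRingEnd ℂ) (M l i) • rowV N l + opD N (colV N i) := by
  ext κ
  have h := congrFun (congrFun hN (Sum.inl i)) (Sum.inr κ)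
  rw [Matrix.mul_apply, Matrix.mul_apply, Fintype.sum_sum_type, Fintype.sum_sum_type] at h
  simp only [conjTranspose_apply, hM] at h
  rw [opD, ← Matrix.toEuclideanLin_conjTranspose_eq_adjoint]
  simp only [PiLp.add_apply, WithLp.ofLp_sum, Finset.sum_apply, PiLp.smul_apply, smul_eq_mul,
    Matrix.toLpLin_apply, Matrix.mulVec, dotProduct, colV, rowV, conjTranspose_apply]
  simp only [← starRingEnd_apply] at h ⊢
  rw [show (∑ l, M i l * (starRingEnd ℂ) (N (Sum.inr κ) (Sum.inl l))) +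
    ∑ x, (starRingEnd ℂ) (N (Sum.inr κ) (Sum.inr x)) * N (Sum.inl i) (Sum.inr x) =
    (∑ l, M i l * (starRingEnd ℂ) (N (Sum.inr κ) (Sum.inl l))) +
    ∑ x, N (Sum.inl i) (Sum.inr x) * (starRingEnd ℂ) (N (Sum.inr κ) (Sum.inr x)) from by
      congr 1
      exact Finset.sum_congr rfl fun x _ => mul_comm _ _, h]
  congr 1
  exact Finset.sum_congr rfl fun x _ => mul_comm _ _

theorem norms (hN : N * Nᴴ = Nᴴ * N) (z : EuclideanSpace ℂ (Fin k)) :
    ∑ l, ‖inner ℂ z (colV N l)‖ ^ 2 + ‖opD N z‖ ^ 2 =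
      ∑ l, ‖inner ℂ z (rowV N l)‖ ^ 2 + ‖LinearMap.adjoint (opD N) z‖ ^ 2 := by
  let x : Fin m ⊕ Fin k → ℂ := Sum.elim (fun _ => 0) z
  have key : ∀ P : Matrix (Fin m ⊕ Fin k) (Fin m ⊕ Fin k) ℂ,
      x ⬝ᵥ (P * Pᴴ) *ᵥ star x = ((∑ l, ‖(x ᵥ* P) l‖ ^ 2 : ℝ) : ℂ) := by
    intro P
    rw [← Matrix.mulVec_mulVec, Matrix.dotProduct_mulVec, ← Matrix.star_vecMul, dotProduct,
      Complex.ofReal_sum]
    refine Finset.sum_congr rfl fun l _ => ?_
    rw [Pi.star_apply, ← starRingEnd_apply, Complex.mul_conj, Complex.normSq_eq_norm_sq]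
  have h1 : ∑ l, ‖(x ᵥ* N) l‖ ^ 2 = ∑ l, ‖(x ᵥ* Nᴴ) l‖ ^ 2 := by
    apply Complex.ofReal_injective
    rw [← key N, ← key Nᴴ, conjTranspose_conjTranspose, hN]
  rw [Fintype.sum_sum_type, Fintype.sum_sum_type] at h1
  have h2 : ∀ l, ‖(x ᵥ* N) (Sum.inl l)‖ = ‖inner ℂ z (colV N l)‖ := by
    intro l
    rw [norm_inner_symm]
    congr 1
    rw [Matrix.vecMul, dotProduct, Fintype.sum_sum_type, PiLp.inner_apply]
    simp [x, colV, RCLike.inner_apply]
  have h3 : ∀ l, ‖(x ᵥ* Nᴴ) (Sum.inl l)‖ = ‖inner ℂ z (rowV N l)‖ := by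
    intro l
    rw [norm_inner_symm]
    congr 1
    rw [Matrix.vecMul, dotProduct, Fintype.sum_sum_type, PiLp.inner_apply]
    simp [x, rowV, RCLike.inner_apply]
  have h4 : ∑ l, ‖(x ᵥ* N) (Sum.inr l)‖ ^ 2 = ‖opD N z‖ ^ 2 := by
    rw [EuclideanSpace.norm_sq_eq]
    refine Finset.sum_congr rfl fun l _ => ?_
    congr 2
    rw [Matrix.vecMul, dotProduct, Fintype.sum_sum_type]
    simp only [x, Sum.elim_inl, Sum.elim_inr, zero_mul, Finset.sum_const_zero, zero_add, opD,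
      Matrix.toLpLin_apply, Matrix.mulVec, dotProduct]
    exact Finset.sum_congr rfl fun x _ => mul_comm _ _
  have h5 : ∑ l, ‖(x ᵥ* Nᴴ) (Sum.inr l)‖ ^ 2 = ‖LinearMap.adjoint (opD N) z‖ ^ 2 := by
    rw [EuclideanSpace.norm_sq_eq]
    refine Finset.sum_congr rfl fun l _ => ?_
    congr 2
    rw [Matrix.vecMul, dotProduct, Fintype.sum_sum_type]
    rw [opD, ← Matrix.toEuclideanLin_conjTranspose_eq_adjoint]
    simp only [x, Sum.elim_inl, Sum.elim_inr, zero_mul, Finset.sum_const_zero, zero_add,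
      Matrix.toLpLin_apply, Matrix.mulVec, dotProduct, conjTranspose_apply]
    exact Finset.sum_congr rfl fun x _ => mul_comm _ _
  simp only [h2, h3, h4, h5] at h1
  exact h1

end

/-! ## Sums along a row or a column of `ext a` -/

section

variable {n : ℕ} {E : Type} [AddCommGroup E] [Module ℂ E] (a : Fin n → ℂ) (v : Fin (n + 1) → E)

theorem sum_row (i : Fin n) : ∑ l, ext a i.castSucc l • v l = a i • v i.succ := by
  rw [Finset.sum_eq_single i.succ]
  · congr 1
    unfold ext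
    rw [dif_pos ⟨i.2, rfl⟩]
    rfl
  · intro l _ hl
    have : ¬ (((i.castSucc : Fin (n + 1)) : ℕ) < n ∧ (l : ℕ) = (i.castSucc : Fin (n + 1)) + 1) := by
      rintro ⟨_, h⟩
      exact hl (Fin.ext (by rw [h]; rfl))
    unfold ext
    rw [dif_neg this, zero_smul]
  · intro h
    exact absurd (Finset.mem_univ _) h

theorem sum_row_last : ∑ l, ext a (Fin.last n) l • v l = 0 := by
  refine Finset.sum_eq_zero fun l _ => ?_
  have : ¬ (((Fin.last n : Fin (n + 1)) : ℕ) < n ∧ (l : ℕ) = (Fin.last n : Fin (n + 1)) + 1) := by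
    rintro ⟨h, _⟩
    exact absurd h (by simp)
  unfold ext
  rw [dif_neg this, zero_smul]

theorem sum_col (i : Fin n) :
    ∑ l, (starRingEnd ℂ) (ext a l i.succ) • v l = (starRingEnd ℂ) (a i) • v i.castSucc := by
  rw [Finset.sum_eq_single i.castSucc]
  · congr 2
    unfold ext
    rw [dif_pos ⟨i.2, rfl⟩]
    rfl
  · intro l _ hl
    have : ¬ ((l : ℕ) < n ∧ ((i.succ : Fin (n + 1)) : ℕ) = l + 1) := by
      rintro ⟨_, h⟩
      rw [Fin.val_succ] at h
      exact hl (Fin.ext (by rw [Fin.val_castSucc]; omega))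
    unfold ext
    rw [dif_neg this, map_zero, zero_smul]
  · intro h
    exact absurd (Finset.mem_univ _) h

theorem sum_col_zero : ∑ l, (starRingEnd ℂ) (ext a l 0) • v l = 0 := by
  refine Finset.sum_eq_zero fun l _ => ?_
  have : ¬ ((l : ℕ) < n ∧ ((0 : Fin (n + 1)) : ℕ) = l + 1) := by
    rintro ⟨_, h⟩
    simp at h
  unfold ext
  rw [dif_neg this, map_zero, zero_smul]

end

/-! ## The example -/

/-- The weights, as integers. -/
def wt : Fin 12 → ℤ := ![1989, 1989, 221, 221, 2516, 2516, 2363, 2363, 2533, 2533, 923, 923]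

/-- The weights. -/
def aw : Fin 12 → ℂ := fun i => (wt i : ℂ)

/-- `ext` over the integers. -/
def extZ : Matrix (Fin 13) (Fin 13) ℤ :=
  fun i j => if h : (i : ℕ) < 12 ∧ (j : ℕ) = i + 1 then wt ⟨i, h.1⟩ else 0

/-- `cyc` over the integers. -/
def cycZ : Matrix (Fin 12) (Fin 12) ℤ :=
  fun i j => if (j : ℕ) = i + 1 ∨ ((i : ℕ) + 1 = 12 ∧ (j : ℕ) = 0) then wt i else 0

theorem ext_eq : ext aw = extZ.map (Int.cast : ℤ → ℂ) := by
  ext i j
  unfold ext extZ aw
  rw [Matrix.map_apply]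
  split_ifs <;> simp

theorem cyc_eq : cyc aw = cycZ.map (Int.cast : ℤ → ℂ) := by
  ext i j
  unfold cyc cycZ aw
  rw [Matrix.map_apply]
  split_ifs <;> simp

theorem castMul {m : ℕ} (Z : Matrix (Fin m) (Fin m) ℤ) :
    Z.map (Int.cast : ℤ → ℂ) * (Z.map (Int.cast : ℤ → ℂ))ᴴ = (Z * Zᵀ).map (Int.cast : ℤ → ℂ) ∧
    (Z.map (Int.cast : ℤ → ℂ))ᴴ * Z.map (Int.cast : ℤ → ℂ) = (Zᵀ * Z).map (Int.cast : ℤ → ℂ) := by
  constructor
  · ext i j
    simp [Matrix.mul_apply, Matrix.map_apply, conjTranspose_apply]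
  · ext i j
    simp [Matrix.mul_apply, Matrix.map_apply, conjTranspose_apply]

/-- The self-commutator of the extension. -/
def dl : Fin 13 → ℤ :=
  ![3956121, 0, -3907280, 0, 6281415, 0, -746487, 0, 832320, 0, -5564160, 0, -851929]

/-- The self-commutator of the cyclic shift. -/
def dc : Fin 12 → ℤ :=
  ![3104192, 0, -3907280, 0, 6281415, 0, -746487, 0, 832320, 0, -5564160, 0]

theorem extZ_comm : ∀ i j, (extZ * extZᵀ) i j - (extZᵀ * extZ) i j = if i = j then dl i else 0 := by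
  decide +kernel

theorem cycZ_comm : ∀ i j, (cycZ * cycZᵀ) i j - (cycZᵀ * cycZ) i j = if i = j then dc i else 0 := by
  decide +kernel

/-- The vertex `2 i`. -/
def dbl (i : Fin 7) : Fin 13 := ⟨2 * i, by omega⟩

theorem sum13 (f : Fin 13 → ℝ) (h : ∀ l : Fin 13, (l : ℕ) % 2 = 1 → f l = 0) :
    ∑ l, f l = f 0 + f 2 + f 4 + f 6 + f 8 + f 10 + f 12 := by
  have h13 : ∑ l, f l = f 0 + f 1 + f 2 + f 3 + f 4 + f 5 + f 6 + f 7 + f 8 + f 9 + f 10 + f 11 +
      f 12 := by
    simp only [Fin.sum_univ_castSucc, Finset.univ_eq_empty, Finset.sum_empty, zero_add]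
    rfl
  rw [h13, h 1 rfl, h 3 rfl, h 5 rfl, h 7 rfl, h 9 rfl, h 11 rfl]
  ring

theorem not_completion_ext (k : ℕ) (hk : k < 5) : ¬ HasCompletion (ext aw) k := by
  rw [hasCompletion_iff]
  rintro ⟨N, hN, hM⟩
  have hfin : Module.finrank ℂ (EuclideanSpace ℂ (Fin k)) = k := finrank_euclideanSpace_fin
  obtain ⟨b, hb⟩ : ∃ b, b = colV N := ⟨_, rfl⟩
  obtain ⟨c, hc⟩ : ∃ c, c = rowV N := ⟨_, rfl⟩
  obtain ⟨D, hD⟩ : ∃ D, D = opD N := ⟨_, rfl⟩
  have hG : ∀ i j, inner ℂ (b i) (b j) - inner ℂ (c i) (c j) =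
      if i = j then (((dl i : ℤ) : ℝ) : ℂ) else 0 := by
    intro i j
    have h1 := gram N hN (ext aw) hM j i
    rw [← hb, ← hc, ext_eq, (castMul extZ).1, (castMul extZ).2, Matrix.sub_apply,
      Matrix.map_apply, Matrix.map_apply, ← Int.cast_sub, extZ_comm] at h1
    rw [h1]
    by_cases hij : i = j
    · subst hij
      simp
    · rw [if_neg hij, if_neg (Ne.symm hij)]
      simp
  have hC := cross N hN (ext aw) hM
  have hNo := norms N hN
  rw [← hb, ← hc, ← hD] at hC hNo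
  -- the tie vertices vanish
  have hT : ∀ t : Fin 13, (t : ℕ) % 2 = 1 → b t = 0 ∧ c t = 0 := by
    intro t ht
    have hinj : ∀ t : Fin 13, (t : ℕ) % 2 = 1 → ∀ i j : Fin 5,
        (![2, 6, 10, 12, t] : Fin 5 → Fin 13) i = (![2, 6, 10, 12, t] : Fin 5 → Fin 13) j →
        i = j := by decide +kernel
    have hneg : ∀ t : Fin 13, (t : ℕ) % 2 = 1 → dl t = 0 ∧ ∀ i : Fin 5, i ≠ 4 →
        dl ((![2, 6, 10, 12, t] : Fin 5 → Fin 13) i) < 0 := by decide +kernel
    refine tie (fun i : Fin 5 => b ((![2, 6, 10, 12, t] : Fin 5 → Fin 13) i))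
      (fun i => c ((![2, 6, 10, 12, t] : Fin 5 → Fin 13) i))
      (fun i => ((dl ((![2, 6, 10, 12, t] : Fin 5 → Fin 13) i) : ℤ) : ℝ)) ?_ 4 ?_ ?_ ?_
    · intro i j
      rw [hG]
      by_cases hij : i = j
      · rw [if_pos hij, if_pos (congrArg _ hij)]
      · rw [if_neg hij, if_neg fun h => hij (hinj t ht i j h)]
    · exact_mod_cast (hneg t ht).1
    · intro i hi
      exact_mod_cast (hneg t ht).2 i hi
    · rw [hfin, Fintype.card_fin]
      exact hk
  -- the equations of the off-diagonal block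
  have hmid : ∀ j j' : Fin 12, (j : ℕ) = j' + 1 →
      aw j • b j.succ + LinearMap.adjoint D (c j.castSucc) =
        (starRingEnd ℂ) (aw j') • c j'.castSucc + D (b j.castSucc) := by
    intro j j' hj
    have h1 := hC j.castSucc
    rw [sum_row] at h1
    have h2 : j.castSucc = j'.succ := Fin.ext (by rw [Fin.val_castSucc, Fin.val_succ, hj])
    rw [h1]
    congr 1
    rw [h2, sum_col]
  have haw : ∀ j : Fin 12, (starRingEnd ℂ) (aw j) = aw j := by
    intro j
    unfold aw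
    exact Complex.conj_eq_iff_im.2 (by simp)
  have haw0 : ∀ j : Fin 12, aw j ≠ 0 := by
    intro j
    unfold aw
    have : wt j ≠ 0 := by
      revert j
      decide
    exact_mod_cast this
  -- at the ties: shift
  have hsh : ∀ j j' : Fin 12, (j : ℕ) = j' + 1 → (j : ℕ) % 2 = 1 → aw j = aw j' →
      b j.succ = c j'.castSucc := by
    intro j j' hj hodd hw
    have h1 := hmid j j' hj
    have h2 := hT j.castSucc hodd
    rw [h2.1, h2.2, map_zero, map_zero, add_zero, add_zero, haw, hw] at h1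
    exact smul_right_injective _ (haw0 j') h1
  have s1 : b 2 = c 0 := hsh 1 0 rfl rfl rfl
  have s3 : b 4 = c 2 := hsh 3 2 rfl rfl rfl
  have s5 : b 6 = c 4 := hsh 5 4 rfl rfl rfl
  have s7 : b 8 = c 6 := hsh 7 6 rfl rfl rfl
  have s9 : b 10 = c 8 := hsh 9 8 rfl rfl rfl
  have s11 : b 12 = c 10 := hsh 11 10 rfl rfl rfl
  -- at the other vertices
  have hev : ∀ j j' : Fin 12, (j : ℕ) = j' + 1 → (j : ℕ) % 2 = 0 →
      D (b j.castSucc) = LinearMap.adjoint D (c j.castSucc) := by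
    intro j j' hj heven
    have h1 := hmid j j' hj
    have h2 := hT j.succ (by rw [Fin.val_succ]; omega)
    have h3 := hT j'.castSucc (by rw [Fin.val_castSucc]; omega)
    rw [h2.1, h3.2, smul_zero, smul_zero, zero_add, zero_add] at h1
    exact h1.symm
  have e0 : D (b 0) = LinearMap.adjoint D (c 0) := by
    have h1 := hC (Fin.castSucc 0)
    rw [sum_row] at h1
    rw [Fin.castSucc_zero, sum_col_zero, (hT (Fin.succ 0) rfl).1, smul_zero, zero_add,
      zero_add] at h1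
    exact h1.symm
  have e12 : D (b 12) = LinearMap.adjoint D (c 12) := by
    have h1 := hC (Fin.last 12)
    rw [sum_row_last] at h1
    have h2 : (Fin.last 12) = Fin.succ (11 : Fin 12) := rfl
    rw [h2, sum_col, (hT (Fin.castSucc 11) rfl).2, smul_zero, zero_add, zero_add] at h1
    exact h1.symm
  have e2 : D (b 2) = LinearMap.adjoint D (c 2) := hev 2 1 rfl rfl
  have e4 : D (b 4) = LinearMap.adjoint D (c 4) := hev 4 3 rfl rfl
  have e6 : D (b 6) = LinearMap.adjoint D (c 6) := hev 6 5 rfl rfl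
  have e8 : D (b 8) = LinearMap.adjoint D (c 8) := hev 8 7 rfl rfl
  have e10 : D (b 10) = LinearMap.adjoint D (c 10) := hev 10 9 rfl rfl
  -- the sequence
  let e : Fin 8 → EuclideanSpace ℂ (Fin k) := ![b 0, c 0, c 2, c 4, c 6, c 8, c 10, c 12]
  have hcs : ∀ i : Fin 7, e i.castSucc = b (dbl i) := by
    intro i
    fin_cases i
    · rfl
    · exact s1.symm
    · exact s3.symm
    · exact s5.symm
    · exact s7.symm
    · exact s9.symm
    · exact s11.symm
  have hsu : ∀ i : Fin 7, e i.succ = c (dbl i) := by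
    intro i
    fin_cases i <;> rfl
  have hdbl : ∀ i j : Fin 7, dbl i = dbl j ↔ i = j := by
    intro i j
    unfold dbl
    rw [Fin.mk.injEq, Fin.ext_iff]
    omega
  refine core (by rw [hfin]; exact hk) e D (LinearMap.adjoint D)
    (fun x y => (LinearMap.adjoint_inner_right D x y).symm)
    (fun i => ((dl (dbl i) : ℤ) : ℝ)) ?_ ?_ ?_ ?_ ?_ ?_ ?_ ?_ ?_ ?_
  · intro i j
    rw [hcs, hcs, hsu, hsu, hG]
    by_cases hij : i = j
    · rw [if_pos hij, if_pos ((hdbl i j).2 hij)]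
    · rw [if_neg hij, if_neg fun h => hij ((hdbl i j).1 h)]
  · intro i
    have : dl (dbl i) ≠ 0 := by
      revert i
      decide +kernel
    exact_mod_cast this
  · have : (0 : ℤ) < dl (dbl 0) := by decide +kernel
    exact_mod_cast this
  · have : (0 : ℤ) < dl (dbl 0) + dl (dbl 1) := by decide +kernel
    exact_mod_cast this
  · have : (0 : ℤ) < dl (dbl 1) + dl (dbl 2) := by decide +kernel
    exact_mod_cast this
  · have : (0 : ℤ) < dl (dbl 2) + dl (dbl 3) := by decide +kernel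
    exact_mod_cast this
  · have : (0 : ℤ) < dl (dbl 3) + dl (dbl 4) := by decide +kernel
    exact_mod_cast this
  · have : dl (dbl 1) + dl (dbl 2) + dl (dbl 3) + dl (dbl 4) + dl (dbl 5) < (0 : ℤ) := by
      decide +kernel
    exact_mod_cast this
  · intro i
    rw [hcs, hsu]
    fin_cases i
    · exact e0
    · exact e2
    · exact e4
    · exact e6
    · exact e8
    · exact e10
    · exact e12
  · intro z
    have h1 := hNo z
    rw [sum13 (fun l => ‖inner ℂ z (b l)‖ ^ 2) (fun l hl => by simp [(hT l hl).1]),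
      sum13 (fun l => ‖inner ℂ z (c l)‖ ^ 2) (fun l hl => by simp [(hT l hl).2])] at h1
    rw [s1, s3, s5, s7, s9, s11] at h1
    show ‖inner ℂ z (b 0)‖ ^ 2 + ‖D z‖ ^ 2 = ‖inner ℂ z (c 12)‖ ^ 2 + ‖LinearMap.adjoint D z‖ ^ 2
    linarith

/-! ## The completion of the cyclic shift -/

/-- The lengths of the rows of the right block. -/
def pt : Fin 6 → ℤ := ![1768, 2652, 867, 1224, 816, 2496]

/-- A normal completion of size `12 + 3`. -/
def complZ : Matrix (Fin 15) (Fin 15) ℤ := fun i j =>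
  if hi : (i : ℕ) < 12 then
    if hj : (j : ℕ) < 12 then cycZ ⟨i, hi⟩ ⟨j, hj⟩
    else if (i : ℕ) % 2 = 0 ∧ (j : ℕ) - 12 = (i : ℕ) / 2 % 3 then
      pt ⟨(i : ℕ) / 2, by omega⟩ else 0
  else
    if (j : ℕ) < 12 ∧ (j : ℕ) % 2 = 0 ∧ (i : ℕ) - 12 = ((j : ℕ) / 2 + 5) % 3 then
      pt ⟨((j : ℕ) / 2 + 5) % 6, Nat.mod_lt _ (by norm_num)⟩ else 0

theorem complZ_normal : complZ * complZᵀ = complZᵀ * complZ := by decide +kernel

theorem complZ_sub : ∀ i j : Fin 12, complZ (Fin.castAdd 3 i) (Fin.castAdd 3 j) = cycZ i j := by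
  decide +kernel

theorem completion_cyc : HasCompletion (cyc aw) 3 := by
  refine ⟨(complZ : Matrix (Fin (12 + 3)) (Fin (12 + 3)) ℤ).map (Int.cast : ℤ → ℂ), ?_, ?_⟩
  · rw [(castMul _).1, (castMul _).2]
    congr 1
    exact complZ_normal
  · intro i j
    rw [Matrix.map_apply, complZ_sub, cyc_eq, Matrix.map_apply]

theorem not_completion_cyc (k : ℕ) (hk : k < 3) : ¬ HasCompletion (cyc aw) k := by
  rw [hasCompletion_iff]
  rintro ⟨N, hN, hM⟩
  have h := neg_card (fun i : Fin 3 => colV N ((![2, 6, 10] : Fin 3 → Fin 12) i))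
    (fun i => rowV N ((![2, 6, 10] : Fin 3 → Fin 12) i))
    (fun i => ((dc ((![2, 6, 10] : Fin 3 → Fin 12) i) : ℤ) : ℝ)) ?_ ?_
  · rw [finrank_euclideanSpace_fin, Fintype.card_fin] at h
    omega
  · intro i j
    have h1 := gram N hN (cyc aw) hM ((![2, 6, 10] : Fin 3 → Fin 12) j)
      ((![2, 6, 10] : Fin 3 → Fin 12) i)
    rw [cyc_eq, (castMul cycZ).1, (castMul cycZ).2, Matrix.sub_apply, Matrix.map_apply,
      Matrix.map_apply, ← Int.cast_sub, cycZ_comm] at h1
    rw [h1]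
    have hinj : ∀ i j : Fin 3, (![2, 6, 10] : Fin 3 → Fin 12) j =
        (![2, 6, 10] : Fin 3 → Fin 12) i ↔ i = j := by decide
    by_cases hij : i = j
    · subst hij
      simp
    · rw [if_neg hij, if_neg fun h => hij ((hinj i j).1 h)]
      simp
  · intro i
    have : dc ((![2, 6, 10] : Fin 3 → Fin 12) i) < 0 := by
      revert i
      decide
    exact_mod_cast this

theorem weights_eq : (![1989, 1989, 221, 221, 2516, 2516, 2363, 2363, 2533, 2533, 923, 923] :
    Fin 12 → ℂ) = aw := by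
  funext i
  fin_cases i <;> simp [aw, wt]

/-- **Negative answer to Q1.** For `n = 12` and the weights
`a = (1989, 1989, 221, 221, 2516, 2516, 2363, 2363, 2533, 2533, 923, 923)` the cyclic weighted shift
`A` has `nd(A) = 3`, and its truncated extension has `nd(Ã) ≥ 5`. So the inequality
`nd(Ã) ≤ nd(A) + 1` does not hold in general. -/
theorem result : (∃ a : Fin 12 → ℂ,
      a = ![1989, 1989, 221, 221, 2516, 2516, 2363, 2363, 2533, 2533, 923, 923] ∧
      nd (cyc a) = 3 ∧ 5 ≤ nd (ext a)) ∧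
    ¬ ∀ n : ℕ, 4 ≤ n → ∀ a : Fin n → ℂ, nd (ext a) ≤ nd (cyc a) + 1 := by
  classical
  have h1 : nd (cyc aw) = 3 := by
    unfold nd
    rw [Nat.find_eq_iff]
    exact ⟨completion_cyc, not_completion_cyc⟩
  have h2 : 5 ≤ nd (ext aw) := by
    unfold nd
    rw [Nat.le_find_iff]
    exact not_completion_ext
  refine ⟨⟨aw, weights_eq.symm, h1, h2⟩, fun h => ?_⟩
  have h3 := h 12 (by norm_num) aw
  omega

end Pool.Agent.Results.MP_1a1084_an.GapTwo
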